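import Pool.Agent.Work.MP_866acd_pr.Wrap

/-!
# Expander walks: Berry-Esseen bound `O(lam / sqrt t)` against the sticky walk

The definitions `RegGraph`, `RegGraph.W`, `RegGraph.IsExpander`, `HasWeights`, `pathProb`,
`labelSum`, `sumLaw`, `sumVar`, `IsAsympVar`, `dTV` and `sticky` are in
`Pool/Agent/Work/MP_866acd_pr/Defs.lean`.
-/

namespace Pool.Agent.Results.MP_866acd_pr.StickyBerryEsseen

open Pool.Agent.Work.MP_866acd_pr

/-- Positive answer to Q1: for fixed `p` there is a constant `C`, depending only on `p`, such that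
for all regular `lam`-spectral expanders with `lam ≤ 1 / 100`, all labelings of weights `p` with
asymptotic variance `σ2`, and all `t ≥ 1`, the total variation distance between `S_t` and the sticky
walk sum with `ν = (σ2 - p 0 * p 1) / (σ2 + p 0 * p 1)` is at most `C * lam / sqrt t`. -/
theorem result (p : Fin 2 → ℝ) (h0 : 0 < p 0) (h1 : 0 < p 1) (hp : p 0 + p 1 = 1) :
    ∃ C : ℝ, ∀ (V : Type) [Fintype V] [Nonempty V] (G : RegGraph V) (lam : ℝ),
      lam ≤ 1 / 100 → G.IsExpander lam →
      ∀ val : V → Fin 2, HasWeights val p →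
      ∀ σ2 : ℝ, IsAsympVar (fun _ => 1 / (Fintype.card V : ℝ)) G.W val σ2 →
      ∀ t : ℕ, 0 < t →
        dTV (sumLaw (fun _ => 1 / (Fintype.card V : ℝ)) G.W val t)
          (sumLaw p (sticky ((σ2 - p 0 * p 1) / (σ2 + p 0 * p 1)) p) id t) ≤
        C * lam / Real.sqrt t :=
  graph_result p h0 h1 hp

end Pool.Agent.Results.MP_866acd_pr.StickyBerryEsseen
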